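import Mathlib
import Pool.Agent.H.MP_2f19c2_an.A

set_option autoImplicit false

namespace Pool.Agent.Results.MP_2f19c2_an.NotQuant

open Pool.Agent.H.MP_2f19c2_an

theorem result : ∃ (X : Type) (_ : NormedAddCommGroup X) (_ : NormedSpace ℝ X),
    CompleteSpace X ∧ RDPP X ∧ ∀ C : NNReal,
      ∃ (Y : Type) (_ : NormedAddCommGroup Y) (_ : NormedSpace ℝ Y), CompleteSpace Y ∧
        ∃ T : X →L[ℝ] Y, C * cc T < wk (T '' Metric.closedBall 0 1) :=
  ⟨_, inferInstance, inferInstance, inferInstance, rdpp', fun C =>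
    ⟨_, inferInstance, inferInstance, inferInstance, main C⟩⟩

end Pool.Agent.Results.MP_2f19c2_an.NotQuant
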